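import Pool.Agent.H981R2.TP.Plane2

/-!
The law of the backward extent of the arm from the tip of the slit.
-/

set_option autoImplicit false

namespace Pool.Agent.V11321.ST

open MeasureTheory Filter Topology
open Pool.Agent.H981R2.TP.PL
open Pool.Agent.H981R2.TP (rising tipVal)
open Pool.Agent.H988R2.Perc (Conf perc)

/-- the least `p` such that the tip is joined to the line `X = 1 + r` inside `X ≥ 1 - p` -/
noncomputable def ext (ω : Conf) (r : ℕ) : ℕ := sInf {p : ℕ | ω ∈ StripArm p r}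

theorem ext_le {ω : Conf} {r : ℕ} (h : ω ∈ PlaneArm r) (p : ℕ) :
    ext ω r ≤ p ↔ ω ∈ StripArm p r := by
  have hne : {p : ℕ | ω ∈ StripArm p r}.Nonempty := by
    rw [plane_eq, Set.mem_iUnion] at h
    exact h
  constructor
  · intro h1
    exact strip_mono_left h1 r (Nat.sInf_mem hne)
  · intro h1
    exact Nat.sInf_le h1

theorem strip_sub (p r : ℕ) : StripArm p r ⊆ PlaneArm r := by
  rw [plane_eq]
  exact Set.subset_iUnion (fun p => StripArm p r) p

theorem set_eq (r p : ℕ) : {ω | ω ∈ PlaneArm r ∧ ext ω r ≤ p} = StripArm p r := by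
  ext ω
  constructor
  · rintro ⟨h1, h2⟩
    exact (ext_le h1 p).1 h2
  · intro h
    exact ⟨strip_sub p r h, (ext_le (strip_sub p r h) p).2 h⟩

theorem set_eq' (r : ℕ) (x : ℝ) (hx : 0 ≤ x) :
    {ω | ω ∈ PlaneArm r ∧ (ext ω r : ℝ) ≤ x} = StripArm ⌊x⌋₊ r := by
  rw [← set_eq]
  ext ω
  simp only [Set.mem_setOf_eq, Nat.le_floor_iff hx]

theorem rising_pos {s : ℝ} (hs : 0 < s) (k : ℕ) : 0 < rising s k := by
  unfold rising
  exact Finset.prod_pos fun i _ => by positivity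

/-- the exact conditional law -/
theorem law {p r : ℕ} (hp : Odd p) (hr : Even r) (hr0 : 0 < r) :
    perc.real {ω | ω ∈ PlaneArm r ∧ ext ω r ≤ p} / perc.real (PlaneArm r) =
      (rising (2/3) p * rising (1/2) (p + r)) / (rising (1/2) p * rising (2/3) (p + r)) := by
  rw [set_eq, strip_exact hp hr hr0, plane_exact hr hr0]
  unfold planeVal tipVal
  have h1 := (rising_pos (s := 1/3) (by norm_num) r).ne'
  have h2 := (rising_pos (s := 1/2) (by norm_num) r).ne'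
  have h3 := (rising_pos (s := 1/2) (by norm_num) p).ne'
  have h4 := (rising_pos (s := 2/3) (by norm_num) (p + r)).ne'
  field_simp

/-- the joint limit -/
theorem joint (x z : ℝ) (hx : 0 < x) (hz : 0 < z) :
    Tendsto (fun n : ℕ => perc.real (StripArm ⌊x * n⌋₊ ⌊z * n⌋₊) / perc.real (PlaneArm n)) atTop
      (𝓝 ((x / (z * (x + z))) ^ ((1:ℝ)/6))) := by
  have hfl : ∀ y : ℝ, 0 < y → Tendsto (fun n : ℕ => ⌊y * (n:ℝ)⌋₊) atTop atTop := fun y hy =>
    tendsto_nat_floor_atTop.comp (tendsto_natCast_atTop_atTop.const_mul_atTop hy)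
  have hdiv : ∀ y : ℝ, 0 < y → Tendsto (fun n : ℕ => (⌊y * (n:ℝ)⌋₊ : ℝ) / n) atTop (𝓝 y) :=
    fun y hy => (tendsto_nat_floor_mul_div_atTop hy.le).comp tendsto_natCast_atTop_atTop
  have hK : (0:ℝ) < Real.sqrt Real.pi / Real.Gamma (1/3) :=
    div_pos (Real.sqrt_pos.2 Real.pi_pos) (Real.Gamma_pos_of_pos (by norm_num))
  have h1 := (strip_asymp (fun n : ℕ => ⌊x * (n:ℝ)⌋₊) (fun n : ℕ => ⌊z * (n:ℝ)⌋₊) (hfl x hx)
    (hfl z hz)).div plane_asymp hK.ne'
  rw [div_self hK.ne'] at h1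
  -- the deterministic factor
  have h2 : Tendsto (fun n : ℕ => (((⌊x * (n:ℝ)⌋₊ : ℝ) / n) / (((⌊z * (n:ℝ)⌋₊ : ℝ) / n) *
      ((⌊x * (n:ℝ)⌋₊ : ℝ) / n + (⌊z * (n:ℝ)⌋₊ : ℝ) / n))) ^ ((1:ℝ)/6)) atTop
      (𝓝 ((x / (z * (x + z))) ^ ((1:ℝ)/6))) := by
    refine Tendsto.rpow_const ?_ (Or.inr (by norm_num))
    exact (hdiv x hx).div ((hdiv z hz).mul ((hdiv x hx).add (hdiv z hz))) (by positivity)
  have h3 := h1.mul h2
  rw [one_mul] at h3
  refine h3.congr' ?_
  have hpl : ∀ᶠ n : ℕ in atTop, perc.real (PlaneArm n) ≠ 0 := by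
    filter_upwards [plane_asymp.eventually (lt_mem_nhds hK)] with n hn h0
    rw [h0, zero_mul] at hn
    exact lt_irrefl _ hn
  filter_upwards [eventually_ge_atTop 1, (hfl x hx).eventually_ge_atTop 1,
    (hfl z hz).eventually_ge_atTop 1, hpl] with n hn hp hr h0
  simp only [Pi.div_apply]
  generalize ⌊x * (n:ℝ)⌋₊ = p at *
  generalize ⌊z * (n:ℝ)⌋₊ = r at *
  have hn0 : (0:ℝ) < n := by exact_mod_cast hn
  have hp0 : (0:ℝ) < p := by exact_mod_cast hp
  have hr0 : (0:ℝ) < r := by exact_mod_cast hr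
  have e1 : ((p:ℝ) / n) / (((r:ℝ) / n) * ((p:ℝ) / n + (r:ℝ) / n)) =
      n / ((r:ℝ) * (p + r) / p) := by
    field_simp
  rw [e1, Real.div_rpow hn0.le (by positivity)]
  have h4 : ((r:ℝ) * (p + r) / p) ^ ((1:ℝ)/6) ≠ 0 := (Real.rpow_pos_of_pos (by positivity) _).ne'
  have h5 : (n:ℝ) ^ ((1:ℝ)/6) ≠ 0 := (Real.rpow_pos_of_pos hn0 _).ne'
  field_simp

/-- the limit law of the extent -/
theorem limit_law (x : ℝ) (hx : 0 < x) :
    Tendsto (fun n : ℕ => perc.real {ω | ω ∈ PlaneArm n ∧ (ext ω n : ℝ) ≤ x * n} /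
      perc.real (PlaneArm n)) atTop (𝓝 ((x / (1 + x)) ^ ((1:ℝ)/6))) := by
  have h := joint x 1 hx one_pos
  rw [one_mul, add_comm x 1] at h
  refine h.congr fun n => ?_
  rw [set_eq' n (x * n) (by positivity), one_mul, Nat.floor_natCast]

end Pool.Agent.V11321.ST
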